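import Mathlib
import Pool.Agent.W482.IP.Stm

set_option autoImplicit false

namespace Pool.Agent.W215.IP

open Set

theorem lip : Pool.Agent.W482.IP.LIP := by
  intro g g' a b hab h
  have h1 : ∀ τ ∈ Icc a b, HasDerivWithinAt (fun τ => (√(g τ))⁻¹)
      (-(g' τ / (2 * √(g τ))) / (√(g τ)) ^ 2) (Icc a b) τ := by
    intro τ hτ
    obtain ⟨h0, hd, _⟩ := h τ hτ
    have hs : √(g τ) ≠ 0 := (Real.sqrt_pos.mpr h0).ne'
    exact ((hd.sqrt h0.ne').inv hs).hasDerivWithinAt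
  have h2 : ∀ τ ∈ Icc a b, ‖-(g' τ / (2 * √(g τ))) / (√(g τ)) ^ 2‖ ≤ 1 := by
    intro τ hτ
    obtain ⟨h0, _, hb⟩ := h τ hτ
    have hs : 0 < √(g τ) := Real.sqrt_pos.mpr h0
    have hsq : √(g τ) ^ 2 = g τ := Real.sq_sqrt h0.le
    have h3 : |g' τ| ≤ 2 * √(g τ) ^ 3 := by
      apply abs_le_of_sq_le_sq _ (by positivity)
      calc g' τ ^ 2 ≤ 4 * g τ ^ 3 := hb
        _ = (2 * √(g τ) ^ 3) ^ 2 := by rw [← hsq, Real.sqrt_sq hs.le]; ring
    rw [norm_div, norm_neg, norm_div, norm_mul, Real.norm_eq_abs, Real.norm_eq_abs,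
      Real.norm_eq_abs, Real.norm_eq_abs, abs_of_pos hs, abs_of_pos (pow_pos hs 2),
      abs_of_pos (by norm_num : (0 : ℝ) < 2), div_div, div_le_one (by positivity)]
    calc |g' τ| ≤ 2 * √(g τ) ^ 3 := h3
      _ = 2 * √(g τ) * √(g τ) ^ 2 := by ring
  have h3 := Convex.norm_image_sub_le_of_norm_hasDerivWithin_le h1 h2 (convex_Icc a b)
    (left_mem_Icc.mpr hab) (right_mem_Icc.mpr hab)
  rw [one_mul, Real.norm_eq_abs, Real.norm_eq_abs, abs_of_nonneg (sub_nonneg.mpr hab)] at h3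
  simpa only [one_div] using h3

end Pool.Agent.W215.IP
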