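import Mathlib
import Pool.Agent.W482.IP.Stm2
import Pool.Agent.W636.IP.Line

set_option autoImplicit false

/-!
The logarithmic barrier of a polyhedron is a self-concordant barrier.
-/

namespace Pool.Agent.W215.IP

open Finset Filter Topology Set Pool.Agent.W482.IP

variable {m n : ℕ}

/-- the slack of the row `i` -/
def sl (A : Fin m → Fin n → ℤ) (b : Fin m → ℤ) (i : Fin m) (x : Fin n → ℝ) : ℝ := b i - row A x i

theorem row_line (A : Fin m → Fin n → ℤ) (x h : Fin n → ℝ) (t : ℝ) (i : Fin m) :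
    row A (x + t • h) i = row A x i + t * row A h i := by
  unfold row
  rw [Finset.mul_sum, ← Finset.sum_add_distrib]
  refine Finset.sum_congr rfl fun j _ => ?_
  simp only [Pi.add_apply, Pi.smul_apply, smul_eq_mul]
  ring

theorem sl_line (A : Fin m → Fin n → ℤ) (b : Fin m → ℤ) (x h : Fin n → ℝ) (t : ℝ) (i : Fin m) :
    sl A b i (x + t • h) = sl A b i x - t * row A h i := by
  unfold sl
  rw [row_line]
  ring

theorem sm_sl (A : Fin m → Fin n → ℤ) (b : Fin m → ℤ) (i : Fin m) : ContDiff ℝ 3 (sl A b i) := by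
  unfold sl row
  exact contDiff_const.sub (ContDiff.sum fun j _ => contDiff_const.mul (contDiff_apply ℝ ℝ j))

theorem open_inner (A : Fin m → Fin n → ℤ) (b : Fin m → ℤ) :
    IsOpen (Pool.Agent.W482.IP.inner A b) := by
  have h1 : Pool.Agent.W482.IP.inner A b = ⋂ i, {x | 0 < sl A b i x} := by
    ext x
    simp only [Pool.Agent.W482.IP.inner, sl, mem_iInter, Set.mem_ofPred_eq, sub_pos]
  rw [h1]
  exact isOpen_iInter_of_finite fun i => isOpen_lt continuous_const (sm_sl A b i).continuous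

theorem sl_pos {A : Fin m → Fin n → ℤ} {b : Fin m → ℤ} {x : Fin n → ℝ}
    (hx : x ∈ Pool.Agent.W482.IP.inner A b) (i : Fin m) : 0 < sl A b i x := sub_pos.mpr (hx i)

/-- the barrier -/
noncomputable def FF (A : Fin m → Fin n → ℤ) (b : Fin m → ℤ) (x : Fin n → ℝ) : ℝ :=
  -∑ i, Real.log (b i - row A x i)

theorem sm_FF (A : Fin m → Fin n → ℤ) (b : Fin m → ℤ) :
    ContDiffOn ℝ 3 (FF A b) (Pool.Agent.W482.IP.inner A b) := by
  have h1 : ContDiffOn ℝ 3 (fun x => -∑ i, Real.log (sl A b i x))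
      (Pool.Agent.W482.IP.inner A b) :=
    (ContDiffOn.sum fun i _ => (sm_sl A b i).contDiffOn.log fun x hx => (sl_pos hx i).ne').neg
  exact h1

theorem hd_sl (A : Fin m → Fin n → ℤ) (b : Fin m → ℤ) (x h : Fin n → ℝ) (t : ℝ) (i : Fin m) :
    HasDerivAt (fun t : ℝ => sl A b i (x + t • h)) (-(row A h i)) t := by
  have h1 : (fun t : ℝ => sl A b i (x + t • h)) = fun t => sl A b i x - t * row A h i := by
    funext t
    exact sl_line A b x h t i
  rw [h1]
  simpa using ((hasDerivAt_id t).mul_const (row A h i)).const_sub (sl A b i x)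

theorem hd_F (A : Fin m → Fin n → ℤ) (b : Fin m → ℤ) (x h : Fin n → ℝ) (t : ℝ)
    (ht : x + t • h ∈ Pool.Agent.W482.IP.inner A b) :
    HasDerivAt (fun t : ℝ => FF A b (x + t • h)) (∑ i, row A h i / sl A b i (x + t • h)) t := by
  have h1 : HasDerivAt (fun t : ℝ => -∑ i, Real.log (sl A b i (x + t • h)))
      (-∑ i, (-(row A h i)) / sl A b i (x + t • h)) t :=
    (HasDerivAt.fun_sum fun i _ => (hd_sl A b x h t i).log (sl_pos ht i).ne').neg
  have h2 : -∑ i, (-(row A h i)) / sl A b i (x + t • h) = ∑ i, row A h i / sl A b i (x + t • h) := by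
    rw [← Finset.sum_neg_distrib]
    refine Finset.sum_congr rfl fun i _ => ?_
    rw [neg_div, neg_neg]
  rw [h2] at h1
  exact h1

theorem hd_r (A : Fin m → Fin n → ℤ) (b : Fin m → ℤ) (x h : Fin n → ℝ) (t : ℝ)
    (ht : x + t • h ∈ Pool.Agent.W482.IP.inner A b) (i : Fin m) :
    HasDerivAt (fun t : ℝ => row A h i / sl A b i (x + t • h))
      ((row A h i / sl A b i (x + t • h)) ^ 2) t := by
  have hs := (sl_pos ht i).ne'
  have h1 : HasDerivAt (fun t : ℝ => row A h i / sl A b i (x + t • h))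
      ((0 * sl A b i (x + t • h) - row A h i * -(row A h i)) / sl A b i (x + t • h) ^ 2) t :=
    (hasDerivAt_const t (row A h i)).div (hd_sl A b x h t i) hs
  have h2 : (0 * sl A b i (x + t • h) - row A h i * -(row A h i)) / sl A b i (x + t • h) ^ 2 =
      (row A h i / sl A b i (x + t • h)) ^ 2 := by
    rw [div_pow]
    congr 1
    ring
  rw [h2] at h1
  exact h1

theorem ev_in (A : Fin m → Fin n → ℤ) (b : Fin m → ℤ) (x h : Fin n → ℝ) (t : ℝ)
    (ht : x + t • h ∈ Pool.Agent.W482.IP.inner A b) :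
    ∀ᶠ s in 𝓝 t, x + s • h ∈ Pool.Agent.W482.IP.inner A b := by
  have hc : Continuous fun s : ℝ => x + s • h := by fun_prop
  exact hc.continuousAt.eventually ((open_inner A b).mem_nhds ht)

theorem d1_eq (A : Fin m → Fin n → ℤ) (b : Fin m → ℤ) (x h : Fin n → ℝ)
    (hx : x ∈ Pool.Agent.W482.IP.inner A b) :
    dird 1 (FF A b) x h = ∑ i, row A h i / sl A b i x := by
  have hx' : x + (0 : ℝ) • h ∈ Pool.Agent.W482.IP.inner A b := by simpa using hx
  obtain ⟨h1, -, -⟩ := Pool.Agent.W636.IP.line _ _ (open_inner A b) (sm_FF A b) x h 0 hx'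
  have h2 := h1.unique (hd_F A b x h 0 hx')
  simpa using h2

theorem d2_eq (A : Fin m → Fin n → ℤ) (b : Fin m → ℤ) (x h : Fin n → ℝ)
    (hx : x ∈ Pool.Agent.W482.IP.inner A b) :
    dird 2 (FF A b) x h = ∑ i, (row A h i / sl A b i x) ^ 2 := by
  have hx' : x + (0 : ℝ) • h ∈ Pool.Agent.W482.IP.inner A b := by simpa using hx
  obtain ⟨-, h1, -⟩ := Pool.Agent.W636.IP.line _ _ (open_inner A b) (sm_FF A b) x h 0 hx'
  have h2 : HasDerivAt (fun t : ℝ => ∑ i, row A h i / sl A b i (x + t • h))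
      (∑ i, (row A h i / sl A b i (x + (0 : ℝ) • h)) ^ 2) 0 :=
    HasDerivAt.fun_sum fun i _ => hd_r A b x h 0 hx' i
  have h3 : (fun t : ℝ => dird 1 (FF A b) (x + t • h) h) =ᶠ[𝓝 0]
      fun t : ℝ => ∑ i, row A h i / sl A b i (x + t • h) := by
    filter_upwards [ev_in A b x h 0 hx'] with t ht
    exact d1_eq A b _ h ht
  have h4 := h1.unique (h2.congr_of_eventuallyEq h3)
  simpa using h4

theorem d3_eq (A : Fin m → Fin n → ℤ) (b : Fin m → ℤ) (x h : Fin n → ℝ)
    (hx : x ∈ Pool.Agent.W482.IP.inner A b) :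
    dird 3 (FF A b) x h = ∑ i, 2 * (row A h i / sl A b i x) ^ 3 := by
  have hx' : x + (0 : ℝ) • h ∈ Pool.Agent.W482.IP.inner A b := by simpa using hx
  obtain ⟨-, -, h1⟩ := Pool.Agent.W636.IP.line _ _ (open_inner A b) (sm_FF A b) x h 0 hx'
  have h2 : HasDerivAt (fun t : ℝ => ∑ i, (row A h i / sl A b i (x + t • h)) ^ 2)
      (∑ i, 2 * (row A h i / sl A b i (x + (0 : ℝ) • h)) ^ 3) 0 := by
    refine HasDerivAt.fun_sum fun i _ => ?_
    have h5 := (hd_r A b x h 0 hx' i).fun_pow 2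
    have h6 : ((2 : ℕ) : ℝ) * (row A h i / sl A b i (x + (0 : ℝ) • h)) ^ (2 - 1) *
        (row A h i / sl A b i (x + (0 : ℝ) • h)) ^ 2 =
        2 * (row A h i / sl A b i (x + (0 : ℝ) • h)) ^ 3 := by
      push_cast
      ring
    rw [h6] at h5
    exact h5
  have h3 : (fun t : ℝ => dird 2 (FF A b) (x + t • h) h) =ᶠ[𝓝 0]
      fun t : ℝ => ∑ i, (row A h i / sl A b i (x + t • h)) ^ 2 := by
    filter_upwards [ev_in A b x h 0 hx'] with t ht
    exact d2_eq A b _ h ht
  have h4 := h1.unique (h2.congr_of_eventuallyEq h3)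
  simpa using h4

theorem third_le (r : Fin m → ℝ) : (∑ i, 2 * r i ^ 3) ^ 2 ≤ 4 * (∑ i, r i ^ 2) ^ 3 := by
  set S := ∑ i, r i ^ 2 with hS
  have hS0 : 0 ≤ S := Finset.sum_nonneg fun i _ => sq_nonneg _
  have h1 : ∀ i, |r i| ≤ √S := by
    intro i
    apply Real.abs_le_sqrt
    exact Finset.single_le_sum (f := fun i => r i ^ 2) (fun i _ => sq_nonneg _) (mem_univ i)
  have h2 : |∑ i, r i ^ 3| ≤ S * √S := by
    calc |∑ i, r i ^ 3| ≤ ∑ i, |r i ^ 3| := Finset.abs_sum_le_sum_abs _ _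
      _ ≤ ∑ i, r i ^ 2 * √S := by
          refine Finset.sum_le_sum fun i _ => ?_
          rw [abs_pow, show |r i| ^ 3 = r i ^ 2 * |r i| by rw [← sq_abs]; ring]
          exact mul_le_mul_of_nonneg_left (h1 i) (sq_nonneg _)
      _ = S * √S := by rw [← Finset.sum_mul]
  have h3 : (∑ i, r i ^ 3) ^ 2 ≤ S ^ 3 := by
    calc (∑ i, r i ^ 3) ^ 2 = |∑ i, r i ^ 3| ^ 2 := (sq_abs _).symm
      _ ≤ (S * √S) ^ 2 := by
          apply pow_le_pow_left₀ (abs_nonneg _) h2
      _ = S ^ 3 := by rw [mul_pow, Real.sq_sqrt hS0]; ring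
  rw [← Finset.mul_sum, mul_pow]
  linarith

theorem logb : LOGB := by
  intro m n A b hA
  have hF : (fun x : Fin n → ℝ => -∑ i, Real.log (b i - row A x i)) = FF A b := rfl
  rw [hF]
  refine ⟨sm_FF A b, ?_, ?_, ?_, ?_⟩
  · intro x hx h hh
    rw [d2_eq A b x h hx]
    obtain ⟨i, hi⟩ : ∃ i, row A h i ≠ 0 := by
      by_contra hc
      push Not at hc
      exact hh (hA h hc)
    refine Finset.sum_pos' (fun i _ => sq_nonneg _) ⟨i, mem_univ i, ?_⟩
    have h1 : row A h i / sl A b i x ≠ 0 := div_ne_zero hi (sl_pos hx i).ne'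
    positivity
  · intro x hx h
    rw [d2_eq A b x h hx, d3_eq A b x h hx]
    exact third_le _
  · intro x hx h
    rw [d2_eq A b x h hx, d1_eq A b x h hx]
    have := sq_sum_le_card_mul_sum_sq (s := (univ : Finset (Fin m)))
      (f := fun i => row A h i / sl A b i x)
    rwa [Finset.card_univ, Fintype.card_fin] at this
  · intro y hy
    have hcl : y ∈ closure (Pool.Agent.W482.IP.inner A b) := hy.1
    have hni : y ∉ Pool.Agent.W482.IP.inner A b := by
      have := hy.2
      rwa [(open_inner A b).interior_eq] at this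
    have hnn : ∀ i, 0 ≤ sl A b i y := by
      intro i
      have h1 : IsClosed {x | 0 ≤ sl A b i x} :=
        isClosed_le continuous_const (sm_sl A b i).continuous
      have h2 : Pool.Agent.W482.IP.inner A b ⊆ {x | 0 ≤ sl A b i x} :=
        fun x hx => (sl_pos hx i).le
      exact closure_minimal h2 h1 hcl
    obtain ⟨i₀, hi₀⟩ : ∃ i, ¬ row A y i < b i := by
      by_contra hc
      push Not at hc
      exact hni hc
    have hz : sl A b i₀ y = 0 := by
      apply le_antisymm _ (hnn i₀)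
      unfold sl
      linarith [not_lt.mp hi₀]
    have hlim : ∀ i, Tendsto (sl A b i) (𝓝[Pool.Agent.W482.IP.inner A b] y) (𝓝 (sl A b i y)) :=
      fun i => ((sm_sl A b i).continuous.tendsto y).mono_left nhdsWithin_le_nhds
    have hin : ∀ᶠ x in 𝓝[Pool.Agent.W482.IP.inner A b] y, x ∈ Pool.Agent.W482.IP.inner A b :=
      self_mem_nhdsWithin
    have h0 : Tendsto (sl A b i₀) (𝓝[Pool.Agent.W482.IP.inner A b] y) (𝓝[>] 0) := by
      apply tendsto_nhdsWithin_of_tendsto_nhds_of_eventually_within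
      · have := hlim i₀
        rwa [hz] at this
      · filter_upwards [hin] with x hx
        exact sl_pos hx i₀
    have h1 : Tendsto (fun x => -Real.log (sl A b i₀ x)) (𝓝[Pool.Agent.W482.IP.inner A b] y)
        atTop := tendsto_neg_atBot_atTop.comp (Real.tendsto_log_nhdsGT_zero.comp h0)
    have h2 := tendsto_atTop_add_const_right _ (∑ i ∈ univ.erase i₀, -Real.log (sl A b i y + 1)) h1
    refine tendsto_atTop_mono' _ ?_ h2
    have h3 : ∀ᶠ x in 𝓝[Pool.Agent.W482.IP.inner A b] y, ∀ i, sl A b i x < sl A b i y + 1 := by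
      rw [Filter.eventually_all]
      intro i
      exact (hlim i).eventually_lt_const (by linarith)
    filter_upwards [hin, h3] with x hx hx3
    have h4 : FF A b x = -Real.log (sl A b i₀ x) + ∑ i ∈ univ.erase i₀, -Real.log (sl A b i x) := by
      rw [Finset.add_sum_erase univ (fun i => -Real.log (sl A b i x)) (mem_univ i₀),
        Finset.sum_neg_distrib]
      rfl
    rw [h4]
    apply add_le_add le_rfl
    refine Finset.sum_le_sum fun i _ => ?_
    exact neg_le_neg (Real.log_le_log (sl_pos hx i) (hx3 i).le)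

end Pool.Agent.W215.IP
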